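import Pool.Agent.N198.TB.Def

/-!
TB/DEC: box classes and the decomposition (helper277).
-/

set_option linter.unusedSectionVars false

namespace Pool.Agent.N277.TB

open Finset Pool.Agent.N993 Pool.Agent.N198.TB
open Pool.Agent.N993.Dat

variable {ι : Type} [DecidableEq ι] {D : Dat ι}

/-! ### The box -/

lemma bx_none (i : ι) : bx i (none : Option (D.G i)) = 0 := by
  unfold bx
  simp

lemma box_none {S : Finset ι} {q : ι} (hq : q ∈ S) {x : D.Pt} (hx : x q = none) : box S x = 0 := by
  unfold Pool.Agent.N198.TB.box
  apply prod_eq_zero hq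
  rw [hx, bx_none]

lemma sum_bx (i : ι) : ∑ u : D.G i, bx i (some u) = 0 := by
  unfold bx
  rw [sum_sub_distrib]
  simp

lemma box_update_of_notMem {S : Finset ι} {q : ι} (hq : q ∉ S) (x : D.Pt) (v : Option (D.G q)) :
    box S (Function.update x q v) = box S x := by
  unfold Pool.Agent.N198.TB.box
  apply prod_congr rfl
  intro i hi
  rw [Function.update_of_ne (by rintro rfl; exact hq hi)]

lemma box_insert {S : Finset ι} {i : ι} (hi : i ∉ S) (x : D.Pt) : box (insert i S) x = bx i (x i) * box S x := by
  unfold Pool.Agent.N198.TB.box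
  rw [prod_insert hi]

lemma box_sum {S : Finset ι} {q : ι} (hq : q ∈ S) (x : D.Pt) :
    ∑ u : D.G q, box S (Function.update x q (some u)) = 0 := by
  have e : ∀ u : D.G q, box S (Function.update x q (some u)) = bx q (some u) * box (S.erase q) x := by
    intro u
    conv_lhs => rw [← insert_erase hq]
    rw [box_insert (notMem_erase q S), box_update_of_notMem (notMem_erase q S), Function.update_self]
  simp only [e]
  rw [← sum_mul, sum_bx, zero_mul]

lemma bx_act_c (x : D.Pt) (i : ι) : bx i (D.act D.c x i) = -bx i (x i) := by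
  cases hxi : x i with
  | none => rw [act_apply_none hxi, bx_none, neg_zero]
  | some u =>
    rw [act_apply_some hxi]
    unfold bx
    have h1 : (some (D.c i * u) = some (1 : D.G i)) ↔ some u = some (D.c i) := by
      rw [Option.some_inj, Option.some_inj]
      constructor
      · intro h
        have := congrArg (fun z => D.c i * z) h
        simp only [← mul_assoc, D.hc i, one_mul, mul_one] at this
        exact this
      · rintro rfl
        exact D.hc i
    have h2 : (some (D.c i * u) = some (D.c i)) ↔ some u = some (1 : D.G i) := by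
      rw [Option.some_inj, Option.some_inj]
      constructor
      · intro h
        exact mul_eq_left.1 h
      · rintro rfl
        rw [mul_one]
    simp only [h1, h2]
    ring

lemma box_act_c (S : Finset ι) (x : D.Pt) : box S (D.act D.c x) = (-1) ^ S.card * box S x := by
  unfold Pool.Agent.N198.TB.box
  simp only [bx_act_c]
  rw [prod_neg]

lemma sign_sq (n : ℕ) : ((-1 : ℤ) ^ n) * (-1) ^ n = 1 := by
  rw [← mul_pow]
  norm_num

/-- TB/DEC, first part -/
theorem box_not_img (hfree : ∀ i, D.c i ≠ 1) (T : Finset ι) :
    ¬ D.Img ((-1) ^ T.card) T (box T : D.Pt → ℤ) := by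
  induction T using Finset.induction_on with
  | empty =>
    rintro ⟨g, -, hg⟩
    have hx0 : D.Supp ∅ (fun _ => none : D.Pt) := fun _ _ => rfl
    have h1 := hg _ hx0
    rw [Pi.add_apply, Pi.smul_apply, T_triv (triv_int D), act_supp hx0 (fun i hi => absurd hi (notMem_empty i)),
      card_empty, pow_zero, one_smul] at h1
    unfold Pool.Agent.N198.TB.box at h1
    rw [prod_empty] at h1
    omega
  | insert i S hi ih =>
    intro hI
    apply ih
    set θ : ℤ := (-1) ^ (insert i S).card with hθdef
    have hθ : θ * θ = 1 := sign_sq _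
    have hθS : -θ = (-1) ^ S.card := by
      rw [hθdef, card_insert_of_notMem hi, pow_succ]
      ring
    set g1 : D.Pt → D.Ind i ℤ := fun x => ⟨fun u => (if u = 1 then 1 else 0) * box S x⟩ with hg1def
    have hg0' : D.EqS S (box (insert i S) : D.Pt → ℤ) ((0 : D.Pt → ℤ) + θ • D.T D.c (0 : D.Pt → ℤ)) := by
      intro x hx
      rw [T_zero, smul_zero, add_zero, box_none (mem_insert_self i S) (hx i hi)]
      rfl
    have hg1 : D.IsD S g1 := by
      intro q hq x hx h0
      apply Ind.ext
      funext u
      rw [ind_sum, ind_sub, ind_smul, ind_smul, triv_int, triv_int]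
      have e1 : ∀ v : D.G q, (g1 (Function.update x q (some v))).ev u =
          (if u = 1 then 1 else 0) * box S (Function.update x q (some v)) := fun v => rfl
      have e2 : ∀ (b : D.GG) (w : D.G i), (g1 (D.act b x)).ev w = 0 := by
        intro b w
        change (if w = 1 then 1 else 0) * box S (D.act b x) = 0
        rw [box_none hq (act_apply_none h0), mul_zero]
      simp only [e1, e2]
      rw [← mul_sum, box_sum hq, mul_zero, sub_zero]
    have hg1' : D.EqS S (D.un i (box (insert i S) : D.Pt → ℤ)) (g1 + θ • D.T D.c g1) := by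
      intro x hx
      apply Ind.ext
      funext u
      rw [un_ev, box_insert hi, Function.update_self, box_update_of_notMem hi, Pi.add_apply, ind_add,
        Pi.smul_apply, ind_zsmul, T_apply, ind_smul, triv_int]
      change bx i (some u) * box S x = (if u = 1 then 1 else 0) * box S x +
        θ * ((if D.c i * u = 1 then 1 else 0) * box S (D.act D.c x))
      rw [box_act_c, ← hθS]
      have h1 : D.c i * u = 1 ↔ u = D.c i := by
        constructor
        · intro h
          have := congrArg (fun z => D.c i * z) h
          simp only [← mul_assoc, D.hc i, one_mul, mul_one] at this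
          exact this
        · rintro rfl
          exact D.hc i
      simp only [h1]
      unfold bx
      simp only [Option.some_inj]
      linear_combination (if u = D.c i then 1 else 0) * box S x * hθ
    have key := (img_iff hfree hi hθ IsD.zero hg0' hg1 hg1').1 hI
    rw [hθS] at key
    refine key.congr (EqS.of_eq ?_)
    funext x
    unfold dlt
    rw [T_zero, T_zero, sub_zero, sub_zero, nrm_apply]
    change ∑ u : D.G i, (if u = 1 then 1 else 0) * box S x = box S x
    rw [← sum_mul]
    simp

/-! ### Two classes -/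

lemma img_empty {f : D.Pt → ℤ} (h : 2 ∣ f (fun _ => none)) : D.Img 1 ∅ f := by
  obtain ⟨w, hw⟩ := h
  refine ⟨fun _ => w, fun i hi => absurd hi (notMem_empty _), ?_⟩
  intro x hx
  have e : x = fun _ => none := funext fun i => hx i (notMem_empty _)
  rw [e, Pi.add_apply, Pi.smul_apply, T_triv (triv_int D), hw, one_smul]
  ring

/-- TB/DEC, second part -/
theorem top (hfree : ∀ i, D.c i ≠ 1) (T : Finset ι) (f g : D.Pt → ℤ) (hf : D.IsD T f)
    (hf1 : D.Ty ((-1) ^ T.card) T f)
    (hf2 : ∀ T' ⊂ T, ((-1) ^ T'.card : ℤ) = (-1) ^ T.card → D.Img ((-1) ^ T.card) T' f)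
    (hg : D.IsD T g) (hg1 : D.Ty ((-1) ^ T.card) T g)
    (hg2 : ∀ T' ⊂ T, ((-1) ^ T'.card : ℤ) = (-1) ^ T.card → D.Img ((-1) ^ T.card) T' g) :
    D.Img ((-1) ^ T.card) T f ∨ D.Img ((-1) ^ T.card) T g ∨ D.Img ((-1) ^ T.card) T (f - g) := by
  induction T using Finset.induction_on generalizing f g with
  | empty =>
    rw [card_empty, pow_zero]
    by_cases h1 : 2 ∣ f (fun _ => none)
    · exact Or.inl (img_empty h1)
    · by_cases h2 : 2 ∣ g (fun _ => none)
      · exact Or.inr (Or.inl (img_empty h2))
      · refine Or.inr (Or.inr (img_empty ?_))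
        rw [Pi.sub_apply]
        omega
  | insert i S hi ih =>
    set θ : ℤ := (-1) ^ (insert i S).card with hθdef
    have hθ : θ * θ = 1 := sign_sq _
    have hθS : -θ = (-1) ^ S.card := by
      rw [hθdef, card_insert_of_notMem hi, pow_succ]
      ring
    -- the decomposition of one function
    have hdec : ∀ k : D.Pt → ℤ, D.IsD (insert i S) k → D.Ty θ (insert i S) k →
        (∀ T' ⊂ insert i S, ((-1) ^ T'.card : ℤ) = θ → D.Img θ T' k) →
        ∃ (k0 : D.Pt → ℤ) (k1 : D.Pt → D.Ind i ℤ), D.IsD S k0 ∧ D.EqS S k (k0 + θ • D.T D.c k0) ∧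
          D.IsD S k1 ∧ D.EqS S (D.un i k) (k1 + θ • D.T D.c k1) ∧
          D.IsD S (dlt i k0 k1) ∧ D.Ty (-θ) S (dlt i k0 k1) ∧
          ∀ T' ⊂ S, ((-1) ^ T'.card : ℤ) = -θ → D.Img (-θ) T' (dlt i k0 k1) := by
      intro k hk hk1 hk2
      have hI : D.Img θ S k := by
        refine detect hfree S θ hθ k (hk.mono (subset_insert _ _)) (hk1.mono (subset_insert _ _)) ?_
        intro T' hT' hpar
        refine hk2 T' ?_ hpar.symm
        exact _root_.ssubset_of_subset_of_ssubset hT' (ssubset_insert hi)
      obtain ⟨k0, hk0, hk0'⟩ := hI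
      obtain ⟨k1, hkk1, hkk1'⟩ := tt hfree S (D.Ind i ℤ) (hT_ind i (hfree i)) θ hθ (D.un i k)
        (hk.un hi) hk1.un
      refine ⟨k0, k1, hk0, hk0', hkk1, hkk1', dlt_isD hk0 hkk1, dlt_ty hi hθ hk hk0' hkk1', ?_⟩
      intro T' hT' hpar
      have hsub := hT'.1
      have hiT : i ∉ T' := fun h => hi (hsub h)
      refine img_dlt hfree hiT hθ (hk0.mono hsub) (hk0'.mono hsub) (hkk1.mono hsub) (hkk1'.mono hsub) ?_
      refine hk2 _ ?_ ?_
      · rw [Finset.ssubset_iff_subset_ne]
        refine ⟨insert_subset_insert _ hsub, ?_⟩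
        intro he
        apply hT'.2
        intro j hj
        have h1 : j ∈ insert i T' := he ▸ mem_insert_of_mem hj
        rcases mem_insert.1 h1 with rfl | h1
        · exact absurd hj hi
        · exact h1
      · rw [card_insert_of_notMem hiT, pow_succ, hpar]
        ring
    obtain ⟨f0, f1, a1, a2, a3, a4, a5, a6, a7⟩ := hdec f hf hf1 hf2
    obtain ⟨g0, g1, b1, b2, b3, b4, b5, b6, b7⟩ := hdec g hg hg1 hg2
    have c2 : D.EqS S (f - g) ((f0 - g0) + θ • D.T D.c (f0 - g0)) := by
      refine (a2.sub b2).trans (EqS.of_eq ?_)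
      rw [T_sub, smul_sub]
      abel
    have c4 : D.EqS S (D.un i (f - g)) ((f1 - g1) + θ • D.T D.c (f1 - g1)) := by
      have e : D.un i (f - g) = D.un i f - D.un i g := by
        funext x
        apply Ind.ext
        funext u
        rfl
      rw [e]
      refine (a4.sub b4).trans (EqS.of_eq ?_)
      rw [T_sub, smul_sub]
      abel
    rw [img_iff hfree hi hθ a1 a2 a3 a4, img_iff hfree hi hθ b1 b2 b3 b4,
      img_iff hfree hi hθ (a1.sub b1) c2 (a3.sub b3) c4]
    have e : dlt i (f0 - g0) (f1 - g1) = dlt i f0 f1 - dlt i g0 g1 := by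
      funext x
      unfold dlt
      simp only [T_sub, Pi.sub_apply, map_sub]
      ring
    rw [e, hθS]
    rw [hθS] at a6 a7 b6 b7
    exact ih _ _ a5 a6 a7 b5 b6 b7

/-! ### The decomposition -/

lemma ty_zero {θ : ℤ} {S : Finset ι} : D.Ty θ S (0 : D.Pt → ℤ) := by
  intro x _
  rw [T_zero]
  simp

lemma ty_zsmul {θ : ℤ} {S : Finset ι} {f : D.Pt → ℤ} (h : D.Ty θ S f) (n : ℤ) : D.Ty θ S (n • f) := by
  intro x hx
  rw [T_zsmul, Pi.smul_apply, Pi.smul_apply, h x hx, smul_comm]

/-- TB/DEC, third part -/
theorem dec (hfree : ∀ i, D.c i ≠ 1) (S : Finset ι) (lam : Finset ι → D.Pt → ℤ)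
    (hlam : ∀ T ⊆ S, Even T.card → 4 ≤ T.card → D.IsD S (lam T) ∧ D.Ty 1 S (lam T) ∧
      D.EqS T (lam T) (box T) ∧ ∀ T' ⊆ S, T' ≠ T → T'.card ≤ T.card → D.EqS T' (lam T) 0)
    (nu : D.Pt → ℤ) (h1 : D.IsD S nu) (h2 : D.Ty 1 S nu)
    (h3 : ∀ T ⊆ S, Even T.card → T.card ≤ 2 → D.Img 1 T nu) :
    ∃ e : Finset ι → ℤ, D.Img 1 S
      (nu - ∑ T ∈ S.powerset.filter (fun T => Even T.card ∧ 4 ≤ T.card), e T • lam T) := by
  classical
  set F := S.powerset.filter (fun T => Even T.card ∧ 4 ≤ T.card) with hF
  have hmem : ∀ T, T ∈ F ↔ T ⊆ S ∧ Even T.card ∧ 4 ≤ T.card := by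
    intro T
    rw [hF, mem_filter, mem_powerset]
  have hD : ∀ e : Finset ι → ℤ, D.IsD S (nu - ∑ T ∈ F, e T • lam T) := by
    intro e
    refine h1.sub (Finset.sum_induction _ (fun f => D.IsD S f) (fun a b ha hb => ha.add hb) IsD.zero ?_)
    intro T hT
    obtain ⟨a, b, c⟩ := (hmem T).1 hT
    exact (hlam T a b c).1.zsmul _
  have hTy : ∀ e : Finset ι → ℤ, D.Ty 1 S (nu - ∑ T ∈ F, e T • lam T) := by
    intro e
    refine h2.sub (Finset.sum_induction _ (fun f => D.Ty 1 S f) (fun a b ha hb => ha.add hb) ty_zero ?_)
    intro T hT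
    obtain ⟨a, b, c⟩ := (hmem T).1 hT
    exact ty_zsmul (hlam T a b c).2.1 _
  have claim : ∀ k : ℕ, ∃ e : Finset ι → ℤ, (∀ T, 3 + k ≤ T.card → e T = 0) ∧
      ∀ T ⊆ S, Even T.card → T.card < 3 + k → D.Img 1 T (nu - ∑ T ∈ F, e T • lam T) := by
    intro k
    induction k with
    | zero =>
      refine ⟨fun _ => 0, fun _ _ => rfl, ?_⟩
      intro T hT hev hlt
      have e : (nu - ∑ T ∈ F, (0 : ℤ) • lam T) = nu := by simp
      rw [e]
      exact h3 T hT hev (by omega)
    | succ k ih =>
      obtain ⟨e, he0, he⟩ := ih
      set cur := nu - ∑ T ∈ F, e T • lam T with hcur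
      -- the new coefficients
      have hch : ∀ T, ∃ ε : ℤ, T ⊆ S → Even T.card → T.card = 3 + k → D.Img 1 T (cur - ε • lam T) := by
        intro T
        by_cases hc : T ⊆ S ∧ Even T.card ∧ T.card = 3 + k
        · obtain ⟨hT, hev, hcard⟩ := hc
          have h4 : 4 ≤ T.card := by
            rcases hev with ⟨r, hr⟩
            omega
          obtain ⟨l1, l2, l3, l4⟩ := hlam T hT hev h4
          have hpar : ((-1 : ℤ)) ^ T.card = 1 := hev.neg_one_pow
          have key := top hfree T cur (lam T) ((hD e).mono hT) (by rw [hpar]; exact (hTy e).mono hT)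
            (by
              intro T' hT' hp
              rw [hpar] at hp ⊢
              have hev' : Even T'.card := by
                rcases Nat.even_or_odd T'.card with h | h
                · exact h
                · rw [h.neg_one_pow] at hp
                  norm_num at hp
              exact he T' (hT'.1.trans hT) hev' (by have := card_lt_card hT'; omega))
            (l1.mono hT) (by rw [hpar]; exact l2.mono hT)
            (by
              intro T' hT' hp
              rw [hpar]
              exact Img.zero.congr (l4 T' (hT'.1.trans hT) (ne_of_ssubset hT') (card_lt_card hT').le).symm)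
          rcases key with h | h | h
          · refine ⟨0, fun _ _ _ => ?_⟩
            rw [hpar] at h
            rw [zero_smul, sub_zero]
            exact h
          · exact absurd (h.congr l3) (box_not_img hfree T)
          · refine ⟨1, fun _ _ _ => ?_⟩
            rw [hpar] at h
            rw [one_smul]
            exact h
        · exact ⟨0, fun a b c => absurd ⟨a, b, c⟩ hc⟩
      choose ε hε using hch
      refine ⟨fun T => if T.card = 3 + k then ε T else e T, ?_, ?_⟩
      · intro T hT
        beta_reduce
        rw [if_neg (by omega)]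
        exact he0 T (by omega)
      · intro T₀ hT₀ hev hlt
        have e1 : (nu - ∑ T ∈ F, (if T.card = 3 + k then ε T else e T) • lam T) =
            cur - ∑ T ∈ F, (if T.card = 3 + k then ε T else 0) • lam T := by
          have e2 : ∀ T ∈ F, (if T.card = 3 + k then ε T else e T) • lam T =
              e T • lam T + (if T.card = 3 + k then ε T else 0) • lam T := by
            intro T _
            split_ifs with h
            · rw [he0 T (by omega), zero_smul, zero_add]
            · rw [zero_smul, add_zero]
          rw [sum_congr rfl e2, sum_add_distrib, hcur]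
          abel
        rw [e1]
        have e3 : D.EqS T₀ (∑ T ∈ F, (if T.card = 3 + k then ε T else 0) • lam T)
            ((if T₀.card = 3 + k then ε T₀ else 0) • lam T₀) := by
          intro x hx
          rw [Finset.sum_apply]
          by_cases hm : T₀ ∈ F
          · rw [sum_eq_single T₀]
            · intro T hT hne
              split_ifs with h
              · obtain ⟨a, b, c⟩ := (hmem T).1 hT
                have := (hlam T a b c).2.2.2 T₀ hT₀ (Ne.symm hne) (by omega) x hx
                rw [Pi.smul_apply, this]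
                simp
              · simp
            · intro h
              exact absurd hm h
          · have hne : T₀.card ≠ 3 + k := by
              intro hc
              apply hm
              rw [hmem]
              refine ⟨hT₀, hev, ?_⟩
              rcases hev with ⟨r, hr⟩
              omega
            rw [if_neg hne, zero_smul, Pi.zero_apply]
            apply sum_eq_zero
            intro T hT
            split_ifs with h
            · obtain ⟨a, b, c⟩ := (hmem T).1 hT
              have hne' : T₀ ≠ T := by
                rintro rfl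
                exact hm hT
              have := (hlam T a b c).2.2.2 T₀ hT₀ hne' (by omega) x hx
              rw [Pi.smul_apply, this]
              simp
            · simp
        by_cases hc : T₀.card = 3 + k
        · rw [if_pos hc] at e3
          exact (hε T₀ hT₀ hev hc).congr ((EqS.refl cur).sub e3.symm)
        · rw [if_neg hc, zero_smul] at e3
          have := (he T₀ hT₀ hev (by omega)).congr (g := cur - 0) (EqS.of_eq (by rw [sub_zero]))
          exact this.congr ((EqS.refl cur).sub e3.symm)
  obtain ⟨e, -, he⟩ := claim (S.card + 1)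
  refine ⟨e, ?_⟩
  refine detect hfree S 1 (by norm_num) _ (hD e) (hTy e) ?_
  intro T hT hpar
  refine he T hT ?_ ?_
  · rcases Nat.even_or_odd T.card with h | h
    · exact h
    · rw [h.neg_one_pow] at hpar
      norm_num at hpar
  · have := card_le_card hT
    omega

end Pool.Agent.N277.TB
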